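import Pool.Agent.Helper53_FCM.Main

/-!
Few distances in a finitely generated subgroup of the plane force a number field, and a line with
many points.
-/

set_option autoImplicit false

namespace Pool.Agent.Results.MP_1fc801_co.FewDistancesForceCM

open Module ComplexConjugate

/-- For every `d` there is `κ > 0` such that for all `v₁, …, v_d ∈ ℂ`, linearly independent over
`ℚ`, there is `c > 0` with the following property.  Let `δ > 0`, `N ≥ 1` and let `A` be a finite set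
of points `∑ x_i v_i` with integers `|x_i| ≤ N`, with at least `δ N ^ d` elements.  If the number
of distinct distances of `A` plus one is at most `κ δ |A|`, then
(1) the rational span of the `v_i` is `z K` with `z ≠ 0` and a number field `K ⊂ ℂ` of degree `d`,
closed under complex conjugation and not contained in `ℝ`, and
(2) some line contains at least `c √(δ |A|)` points of `A`. -/
theorem result (d : ℕ) : ∃ κ : ℝ, 0 < κ ∧ ∀ v : Fin d → ℂ, LinearIndependent ℚ v →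
    ∃ c : ℝ, 0 < c ∧ ∀ (δ : ℝ) (N : ℕ) (A : Finset ℂ), 0 < δ → 1 ≤ N →
      (∀ z ∈ A, ∃ x : Fin d → ℤ, (∀ i, |x i| ≤ N) ∧ ∑ i, (x i : ℂ) * v i = z) →
      δ * (N : ℝ) ^ d ≤ (A.card : ℝ) →
      (Set.ncard {r : ℝ | ∃ p ∈ A, ∃ q ∈ A, p ≠ q ∧ r = dist p q} : ℝ) + 1 ≤ κ * δ * A.card →
      (∃ (K : Subfield ℂ) (z : ℂ), z ≠ 0 ∧ finrank ℚ K = d ∧
        (∀ w : ℂ, z * w ∈ Submodule.span ℚ (Set.range v) ↔ w ∈ K) ∧
        (∀ w ∈ K, conj w ∈ K) ∧ ∃ w ∈ K, w.im ≠ 0) ∧
      ∃ L : AffineSubspace ℝ ℂ, finrank ℝ L.direction = 1 ∧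
        c * Real.sqrt (δ * A.card) ≤ (((A : Set ℂ) ∩ (L : Set ℂ)).ncard : ℝ) := by
  have hC := FCM.Cd_pos d
  refine ⟨1 / (2 * FCM.Cd d), by positivity, fun v hv => ?_⟩
  rcases FCM.dichotomy hv with h | ⟨K, z, hz, hd, hK, hconj, him, c, hc, hline⟩
  · refine ⟨1, one_pos, fun δ N A hδ hN hA hcard hD => ?_⟩
    exfalso
    have h1 := h N A hN hA
    have hD' : ((FCM.nd A : ℝ) + 1) ≤ 1 / (2 * FCM.Cd d) * δ * A.card := hD
    have h0 : (0 : ℝ) < A.card := by
      have hNp : (0 : ℝ) < (N : ℝ) ^ d := by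
        have : (0 : ℝ) < N := by exact_mod_cast hN
        positivity
      have := mul_pos hδ hNp
      linarith
    have h2 : ((FCM.nd A : ℝ) + 1) * N ^ d ≤ A.card ^ 2 / (2 * FCM.Cd d) := by
      calc ((FCM.nd A : ℝ) + 1) * N ^ d
          ≤ (1 / (2 * FCM.Cd d) * δ * A.card) * N ^ d :=
            mul_le_mul_of_nonneg_right hD' (by positivity)
        _ = (1 / (2 * FCM.Cd d) * A.card) * (δ * N ^ d) := by ring
        _ ≤ (1 / (2 * FCM.Cd d) * A.card) * A.card :=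
            mul_le_mul_of_nonneg_left hcard (by positivity)
        _ = _ := by ring
    have h3 : (A.card : ℝ) ^ 2 ≤ A.card ^ 2 / 2 := by
      calc (A.card : ℝ) ^ 2 ≤ FCM.Cd d * (((FCM.nd A : ℝ) + 1) * N ^ d) := h1
        _ ≤ FCM.Cd d * (A.card ^ 2 / (2 * FCM.Cd d)) :=
            mul_le_mul_of_nonneg_left h2 hC.le
        _ = A.card ^ 2 / 2 := by
            field_simp
    have h4 : (0 : ℝ) < (A.card : ℝ) ^ 2 := by positivity
    linarith
  · refine ⟨c, hc, fun δ N A hδ hN hA hcard _ => ⟨⟨K, z, hz, hd, hK, hconj, him⟩, ?_⟩⟩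
    obtain ⟨L, hL, hL'⟩ := hline N A hN hA
    refine ⟨L, hL, ?_⟩
    set m : ℝ := (((A : Set ℂ) ∩ (L : Set ℂ)).ncard : ℝ) with hm
    have hm0 : 0 ≤ m := Nat.cast_nonneg _
    have hN1 : (1 : ℝ) ≤ N := by exact_mod_cast hN
    have h0 : (0 : ℝ) < A.card := by
      have hNp : (0 : ℝ) < (N : ℝ) ^ d := by positivity
      have := mul_pos hδ hNp
      linarith
    have h1 : ((N : ℝ) ^ (d / 2)) ^ 2 ≤ (N : ℝ) ^ d := by
      rw [← pow_mul]
      exact pow_le_pow_right₀ hN1 (Nat.div_mul_le_self d 2)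
    have h2 : (c * A.card) ^ 2 ≤ (N : ℝ) ^ d * m ^ 2 := by
      calc (c * A.card) ^ 2 ≤ ((N : ℝ) ^ (d / 2) * m) ^ 2 :=
            pow_le_pow_left₀ (by positivity) hL' 2
        _ = ((N : ℝ) ^ (d / 2)) ^ 2 * m ^ 2 := mul_pow _ _ _
        _ ≤ (N : ℝ) ^ d * m ^ 2 := mul_le_mul_of_nonneg_right h1 (by positivity)
    have h3 : c ^ 2 * (δ * A.card) * A.card ≤ m ^ 2 * A.card := by
      calc c ^ 2 * (δ * A.card) * A.card = δ * (c * A.card) ^ 2 := by ring
        _ ≤ δ * ((N : ℝ) ^ d * m ^ 2) := mul_le_mul_of_nonneg_left h2 hδ.le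
        _ = (δ * (N : ℝ) ^ d) * m ^ 2 := by ring
        _ ≤ A.card * m ^ 2 := mul_le_mul_of_nonneg_right hcard (by positivity)
        _ = m ^ 2 * A.card := mul_comm _ _
    have h4 : c ^ 2 * (δ * A.card) ≤ m ^ 2 := le_of_mul_le_mul_right h3 h0
    have h5 : (c * Real.sqrt (δ * A.card)) ^ 2 ≤ m ^ 2 := by
      rw [mul_pow, Real.sq_sqrt (by positivity)]
      exact h4
    exact (pow_le_pow_iff_left₀ (by positivity) hm0 two_ne_zero).1 h5

end Pool.Agent.Results.MP_1fc801_co.FewDistancesForceCM
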