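import Pool.Agent.Helper61_FRE.All

/-!
MP_1fc801_co, Q1, special case: sets of large additive energy with few distinct distances.
-/

set_option autoImplicit false

namespace Pool.Agent.Results.MP_1fc801_co.LargeEnergyParallelLines

/-- For every `K` there are `ε, c, C > 0` and `A`: let `P` be a set of `n ≥ 2` points of the plane
with at most `ε n` distinct distances and with `n³ ≤ K E`, where `E` is the number of the quadruples
`(a, b, a', b')` of points of `P` with `a + b = a' + b'`.  Then for some direction `V` at least `c n`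
points of `P` are covered by at most `C sqrt n (log n)^A` lines parallel to `V`, and some line
parallel to `V` contains at least `c sqrt n / (C (log n)^A)` points of `P`. -/
theorem result : ∀ K : ℝ, ∃ (ε c C : ℝ) (A : ℕ), 0 < ε ∧ 0 < c ∧ 0 < C ∧
    ∀ P : Finset (EuclideanSpace ℝ (Fin 2)), 2 ≤ P.card →
    (P.card : ℝ) ^ 3 ≤ K * ({q : EuclideanSpace ℝ (Fin 2) × EuclideanSpace ℝ (Fin 2) ×
      EuclideanSpace ℝ (Fin 2) × EuclideanSpace ℝ (Fin 2) | q.1 ∈ P ∧ q.2.1 ∈ P ∧ q.2.2.1 ∈ P ∧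
        q.2.2.2 ∈ P ∧ q.1 + q.2.1 = q.2.2.1 + q.2.2.2}.ncard : ℝ) →
    ({r : ℝ | ∃ p ∈ P, ∃ q ∈ P, p ≠ q ∧ r = dist p q}.ncard : ℝ) ≤ ε * P.card →
    ∃ V : Submodule ℝ (EuclideanSpace ℝ (Fin 2)), Module.finrank ℝ V = 1 ∧
      (∃ R ⊆ P, c * P.card ≤ R.card ∧
        ∃ F ⊆ R, (F.card : ℝ) ≤ C * Real.sqrt P.card * (Real.log P.card) ^ A ∧
          ∀ p ∈ R, ∃ q ∈ F, p - q ∈ V) ∧
      ∃ L : AffineSubspace ℝ (EuclideanSpace ℝ (Fin 2)), L.direction = V ∧
        c * Real.sqrt P.card / (C * (Real.log P.card) ^ A) ≤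
          (((P : Set (EuclideanSpace ℝ (Fin 2))) ∩
            (L : Set (EuclideanSpace ℝ (Fin 2)))).ncard : ℝ) :=
  Pool.Agent.FRE.H61.final_energy Pool.Agent.PLX.H61.gpc_all Pool.Agent.FRE.Asm.fre
    Pool.Agent.FRE.Asm.bsg

end Pool.Agent.Results.MP_1fc801_co.LargeEnergyParallelLines
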