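import Pool.Agent.Helper61_FRE.All

/-!
MP_1fc801_co, Q1, special case: (dense subsets of) sets of small doubling with few distinct
distances.
-/

set_option autoImplicit false

namespace Pool.Agent.Results.MP_1fc801_co.SmallDoublingParallelLines

/-- For every `K` there are `κ, C > 0` and `A`: let `P ⊆ Q` be finite sets of points of the plane,
`|P| ≥ 2`, `|Q + Q| ≤ K |Q|`, and let `P` have at most `κ |P|² / |Q|` distinct distances.  Then for
some direction `V` the whole set `P` is covered by at most `C sqrt |Q| (log |P|)^A` lines parallel to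
`V`, and some line parallel to `V` contains at least `|P| / (C sqrt |Q| (log |P|)^A)` points of
`P`. -/
theorem result : ∀ K : ℝ, ∃ (κ C : ℝ) (A : ℕ), 0 < κ ∧ 0 < C ∧
    ∀ P Q : Finset (EuclideanSpace ℝ (Fin 2)), P ⊆ Q → 2 ≤ P.card →
    ({s : EuclideanSpace ℝ (Fin 2) | ∃ p ∈ Q, ∃ q ∈ Q, s = p + q}.ncard : ℝ) ≤ K * Q.card →
    ({r : ℝ | ∃ p ∈ P, ∃ q ∈ P, p ≠ q ∧ r = dist p q}.ncard : ℝ) * Q.card ≤
      κ * (P.card : ℝ) ^ 2 →
    ∃ V : Submodule ℝ (EuclideanSpace ℝ (Fin 2)), Module.finrank ℝ V = 1 ∧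
      (∃ F ⊆ P, (F.card : ℝ) ≤ C * Real.sqrt Q.card * (Real.log P.card) ^ A ∧
        ∀ p ∈ P, ∃ q ∈ F, p - q ∈ V) ∧
      ∃ L : AffineSubspace ℝ (EuclideanSpace ℝ (Fin 2)), L.direction = V ∧
        (P.card : ℝ) / (C * Real.sqrt Q.card * (Real.log P.card) ^ A) ≤
          (((P : Set (EuclideanSpace ℝ (Fin 2))) ∩
            (L : Set (EuclideanSpace ℝ (Fin 2)))).ncard : ℝ) :=
  Pool.Agent.FRE.H61.final_doubling Pool.Agent.PLX.H61.gpc_all Pool.Agent.FRE.Asm.fre

end Pool.Agent.Results.MP_1fc801_co.SmallDoublingParallelLines
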